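import Pool.Agent.U167.SA.Stm8
import Pool.Agent.U167.SA.All1
import Pool.Agent.U95.SA.PXC

/-!
Project SA, package BND (helper61): upper bound of the one-arm probability to distance `r` in the
straight half-plane.
-/

set_option autoImplicit false

namespace Pool.Agent.U61.SA

open H974 Filter Topology MeasureTheory
open Pool.Agent.U167.SA Pool.Agent.U578.SA

theorem D0_eq : D0 = Dm 0 0 := by
  unfold D0
  ext e
  constructor
  · rintro ⟨k1, k2⟩
    exact ⟨⟨fun _ => k1, fun _ => k1⟩, fun _ => k2, fun _ => k2⟩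
  · rintro ⟨⟨k1, k2⟩, k3, k4⟩
    constructor
    · rcases le_or_gt 0 (ht (src e)) with h | h
      · exact k1 h
      · exact k2 h
    · rcases le_or_gt 0 (ht (tgt e)) with h | h
      · exact k3 h
      · exact k4 h

/-- Under `Q s` a set near the origin which is joined to the outside of the box of radius `16 s` is
joined to the column `80 s`. -/
theorem key (h : UniStm) {s : ℕ} (hs : 0 < s) {A : Set Vtx} (hA : ∀ u ∈ A, inB (2*s) u)
    {X : Finset Edg} (hQ : Q s X) (hc : Cj (↑X ∩ D0) A {v | ¬ inB (16*s) v}) :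
    Hit D0 A (80*s : ℕ) X := by
  obtain ⟨hB1, -, hR⟩ := hQ
  have hs' : (0:ℤ) < s := by exact_mod_cast hs
  obtain ⟨z1, hz1⟩ := h (4*s) 0 0 (by omega) (by simp) (by simp) X D0
    (by
      intro e he he'
      rw [D0_eq]) hB1
  have e1 : 4 * (4 * s) = 16 * s := by ring
  rw [e1] at hz1
  have mono : ∀ (k : ℕ) (x y : Vtx), Reach (↑X ∩ D0 ∩ ↑(boxE k)) x y → Reach (↑X ∩ D0) x y :=
    fun k x y hr => hr.mono Set.inter_subset_left
  obtain ⟨u, huA, v, hv, huv⟩ := hc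
  have hu := hA u huA
  have r1 : Reach (↑X ∩ D0) u z1 := by
    obtain ⟨w, hw, hr⟩ := exit_box (r := 16*s) (Pool.Agent.U578.SA.inB_mono (by omega) hu) huv (by
      have hv' : ¬ inB (16*s) v := hv
      simp only [inB, inR] at hv'
      push_cast at hv' ⊢
      omega)
    apply mono (16*s)
    have hu4 : inB (4*s-1) u := Pool.Agent.U578.SA.inB_mono (by omega) hu
    exact hz1 u w hu4 hw hr
  obtain ⟨y, y', hy, hy', hrad⟩ := hR
  have hradJ : Reach (↑X ∩ D0) ((0:ℤ), y) ((80*s+1 : ℤ), y') := by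
    apply hrad.mono
    rintro e ⟨h1, h2⟩
    refine ⟨h1, ?_⟩
    have h2' : e ∈ LRE 0 (80*s+1) (-(3*s)) (-(2*s)) := h2
    rw [D0_eq]
    obtain ⟨x0, y0, _ | _⟩ := e
    · rw [mem_LRE_false] at h2'
      simp only [Dm, Set.mem_ofPred_eq, DV, src_mk, tgt_false, col, ht]
      refine ⟨⟨fun _ => ?_, fun _ => ?_⟩, fun _ => ?_, fun _ => ?_⟩ <;> omega
    · rw [mem_LRE_true] at h2'
      simp only [Dm, Set.mem_ofPred_eq, DV, src_mk, tgt_true, col, ht]
      refine ⟨⟨fun _ => ?_, fun _ => ?_⟩, fun _ => ?_, fun _ => ?_⟩ <;> omega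
  have hr0 : inB (4*s-1) ((0:ℤ), y) := by
    simp only [inB, inR]
    push_cast [Nat.cast_sub (show 1 ≤ 4*s by omega)]
    omega
  have r2 : Reach (↑X ∩ D0) ((0:ℤ), y) z1 := by
    obtain ⟨w, hw, hr⟩ := exit_box (r := 16*s) (Pool.Agent.U578.SA.inB_mono (by omega) hr0) hradJ
      (by right; left; push_cast; omega)
    exact mono (16*s) _ _ (hz1 _ w hr0 hw hr)
  have r3 : Reach (↑X ∩ D0) ((80*s+1 : ℤ), y') u := hradJ.symm.trans (r2.trans r1.symm)
  obtain ⟨w, hw, hr⟩ := Pool.Agent.U692.SA.stop_col (b := 80*s) r3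
    (by simp only [col]; omega)
    (by
      simp only [inB, inR] at hu
      push_cast at hu
      simp only [col]
      omega)
  refine ⟨u, huA, w, by rw [hw]; push_cast; ring, r3.symm.trans (hr.mono Set.inter_subset_left)⟩

theorem PX_le_one (G P : Set Edg) (A T : Set Vtx) (L : List (Set Vtx × Set Vtx)) :
    PX G P A T L ≤ 1 := by
  refine le_of_tendsto' (Pool.Agent.U95.SA.t_PXC G P A T L) fun M => Pr_le_one ?_ _ _
  intro e
  norm_num

theorem PX_mono_T {G P : Set Edg} {A T T' : Set Vtx} {L : List (Set Vtx × Set Vtx)} (h : T ⊆ T') :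
    PX G P A T L ≤ PX G P A T' L := by
  refine le_of_tendsto_of_tendsto' (Pool.Agent.U95.SA.t_PXC G P A T L)
    (Pool.Agent.U95.SA.t_PXC G P A T' L) fun M => Pr_mono (fun e => by norm_num) ?_
  rintro F - ⟨⟨u, hu, v, hv, hr⟩, h2⟩
  exact ⟨⟨u, hu, v, h hv, hr⟩, h2⟩

/-- comparison of the one-arm probability to distance `16 s` with that to the column `80 s` -/
theorem cmp : ∃ δ : ℝ, 0 < δ ∧ ∀ (s : ℕ), 0 < s → ∀ A : Set Vtx, (∀ u ∈ A, inB (2*s) u) →
    δ * PX D0 ∅ A {v | ¬ inB (16*s) v} [] ≤ PP D0 A (80*s : ℕ) := by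
  obtain ⟨δ, hδ0, hδ1, hδ⟩ := Pool.Agent.U408.SA.t_QP
  refine ⟨δ, hδ0, fun s hs A hA => ?_⟩
  obtain ⟨-, hinc, hpr⟩ := hδ s hs
  have hok : Ok (fun _ : Edg => (1/2 : ℝ)) := fun e => by norm_num
  have t1 := (Pool.Agent.U95.SA.t_PXC D0 ∅ A {v | ¬ inB (16*s) v} []).const_mul δ
  have t2 := a_PPB.2.2.1 D0 A (80*s : ℕ)
  refine le_of_tendsto_of_tendsto t1 t2 ?_
  filter_upwards [eventually_ge_atTop (80*s+1)] with M hM
  have i1 : IncrE (boxE M) (fun F => Ev D0 ∅ A {v | ¬ inB (16*s) v} [] ↑F) := by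
    intro F G hFG _ hF
    exact Pool.Agent.U95.SA.Ev_mono (by exact_mod_cast hFG) hF
  have i2 : IncrE (boxE M) (Q s) := fun F G hFG _ hF => hinc F G hFG hF
  have hh := Pr_harris hok i2 i1
  have h1 : δ * Pr (fun _ => (1/2 : ℝ)) (boxE M) (fun F => Ev D0 ∅ A {v | ¬ inB (16*s) v} [] ↑F) ≤
      Pr (fun _ => (1/2 : ℝ)) (boxE M) (Q s) *
        Pr (fun _ => (1/2 : ℝ)) (boxE M) (fun F => Ev D0 ∅ A {v | ¬ inB (16*s) v} [] ↑F) :=
    mul_le_mul_of_nonneg_right (hpr _ (boxE_mono hM)) (Pr_nonneg hok _ _)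
  refine h1.trans (hh.trans (Pr_mono hok ?_))
  rintro F - ⟨hQ, hE, -⟩
  rw [Set.union_empty] at hE
  exact key Pool.Agent.U692.SA.t_UNI hs hA hQ hE

/-- the one-arm probability to the column `n` -/
theorem colb {A : Set Vtx} (hA : ∃ r, ∀ v ∈ A, inB r v) :
    ∃ C : ℝ, 0 ≤ C ∧ ∀ n : ℕ, 1 ≤ n → PP D0 A n ≤ C * (n:ℝ)^(-((1:ℝ)/3)) := by
  obtain ⟨c, -, hT, -⟩ := a_F3 a_UNIW (w := fun _ => 0) (s0 := 0) (by simp) (by simp)
    (G := D0) (A := A) ⟨0, fun e _ => by rw [D0]⟩ hA 0 (fun _ => True)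
  obtain ⟨C, hC⟩ := hT.bddAbove_range
  refine ⟨max C 0, le_max_right _ _, fun n hn => ?_⟩
  have hC' : PE 0 (fun _ => True) D0 A n * (n:ℝ)^((1:ℝ)/3) ≤ max C 0 :=
    (hC ⟨n, rfl⟩).trans (le_max_left _ _)
  have e : PP D0 A n = PE 0 (fun _ => True) D0 A n := by
    rw [a_PERC]
    unfold PE
    simp
  have hn0 : (0:ℝ) < n := by exact_mod_cast hn
  rw [e, Real.rpow_neg hn0.le, ← div_eq_mul_inv, le_div_iff₀ (Real.rpow_pos_of_pos hn0 _)]
  exact hC'

/-- **BND** -/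
theorem t_BND : BndStm := by
  intro s A hA
  obtain ⟨δ, hδ, hcmp⟩ := cmp
  obtain ⟨C1, hC1, hcol⟩ := colb ⟨s, hA⟩
  set s1 := s + 1 with hs1
  refine ⟨max (C1 / δ) ((16 * (s1:ℝ))^((1:ℝ)/3)), le_trans (by positivity) (le_max_left _ _),
    fun r => ?_⟩
  have hr1 : (0:ℝ) < (r:ℝ) + 1 := by positivity
  by_cases hr : r < 16 * s1
  · -- small radii
    refine (PX_le_one _ _ _ _ _).trans ?_
    refine le_trans ?_ (mul_le_mul_of_nonneg_right (le_max_right _ _) (Real.rpow_nonneg hr1.le _))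
    rw [Real.rpow_neg hr1.le, ← div_eq_mul_inv, le_div_iff₀ (Real.rpow_pos_of_pos hr1 _), one_mul]
    apply Real.rpow_le_rpow hr1.le _ (by norm_num)
    exact_mod_cast hr
  · -- large radii
    rw [not_lt] at hr
    refine le_trans ?_ (mul_le_mul_of_nonneg_right (le_max_left _ _) (Real.rpow_nonneg hr1.le _))
    obtain ⟨k, hk⟩ : ∃ k, k = r / 16 := ⟨_, rfl⟩
    have hk1 : s1 ≤ k := by omega
    have hk2 : 16 * k ≤ r := by omega
    have hk3 : r + 1 ≤ 80 * k := by omega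
    have hA' : ∀ u ∈ A, inB (2*k) u := fun u hu => Pool.Agent.U578.SA.inB_mono (by omega) (hA u hu)
    have g1 : PX D0 ∅ A {v | ¬ inB r v} [] ≤ PX D0 ∅ A {v | ¬ inB (16*k) v} [] :=
      PX_mono_T fun v hv hv' => hv (Pool.Agent.U578.SA.inB_mono hk2 hv')
    have g2 := hcmp k (by omega) A hA'
    have g3 := hcol (80*k) (by omega)
    have g4 : ((80*k : ℕ) : ℝ)^(-((1:ℝ)/3)) ≤ ((r:ℝ)+1)^(-((1:ℝ)/3)) := by
      apply Real.rpow_le_rpow_of_nonpos hr1 _ (by norm_num)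
      exact_mod_cast hk3
    have g5 : δ * PX D0 ∅ A {v | ¬ inB r v} [] ≤ C1 * ((r:ℝ)+1)^(-((1:ℝ)/3)) :=
      ((mul_le_mul_of_nonneg_left g1 hδ.le).trans g2).trans
        (g3.trans (mul_le_mul_of_nonneg_left g4 hC1))
    rw [div_mul_eq_mul_div, le_div_iff₀ hδ, mul_comm]
    exact g5

end Pool.Agent.U61.SA
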